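import Pool.Agent.Helper87.FX.Defs

/-!
# Project FX (MP_3bffab_ag), chapter S, analytic part: retraction, words, approximation.  Statements with proofs

Every module proves `theorem hXXX : ... → StXXX` (hypotheses: the statements named in the docstring; further statements of this
file may be added as hypotheses).  `V` is a finite dimensional real normed space, `P : V → ℂ` smooth,
`Y = {x | P x = 0}`, `DP(x)` is surjective for `x ∈ Y`.
-/

set_option autoImplicit false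

namespace Pool.Agent.Helper65.FX

open Set Topology Metric Filter
open scoped ContDiff
open Pool.Agent.Helper87.FX (Flw Par vel spn wd Rch)

/-! ### B1: implicit functions with parameters -/

/-- UCT (uniform contraction).

PROOF.  For `t ∈ O` the map `u ↦ u - Ψ t u` sends the closed ball `B` of radius `ε` into itself
(`‖u - Ψ t u‖ ≤ ‖Ψ t 0‖ + ‖Ψ t u - Ψ t 0 - (u - 0)‖ ≤ ε/2 + ε/2`) and is a contraction with constant `1/2`; `B` is complete.
Fixed point `s t` (`ContractingWith.exists_fixedPoint'`, or the version for a complete subset), `Ψ t (s t) = 0`.  Uniqueness: if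
`Ψ t u = Ψ t u' = 0` the second hypothesis gives `‖u - u'‖ ≤ ‖u - u'‖/2`.  Continuity at `t ∈ O` within `O`: `u = s t`, `u' = s t'`, `t' ∈ O`:
`‖u - u'‖ ≤ ‖Ψ t' u - Ψ t' u'‖ + ‖u - u'‖/2`, so `‖u - u'‖ ≤ 2 ‖Ψ t' u‖ = 2 ‖Ψ t' u - Ψ t u‖`, which tends to `0` for `t' → t` because `u` is fixed. -/
def StUCT : Prop := ∀ (T E : Type) [TopologicalSpace T] [NormedAddCommGroup E] [NormedSpace ℝ E]
  [FiniteDimensional ℝ E] (O : Set T) (Ψ : T → E → E) (ε : ℝ), 0 < ε →
  (∀ u ∈ closedBall (0 : E) ε, ContinuousOn (fun t => Ψ t u) O) →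
  (∀ t ∈ O, ∀ u ∈ closedBall (0 : E) ε, ∀ u' ∈ closedBall (0 : E) ε,
    ‖Ψ t u - Ψ t u' - (u - u')‖ ≤ ‖u - u'‖ / 2) →
  (∀ t ∈ O, ‖Ψ t 0‖ ≤ ε / 2) →
  ∃ s : T → E, ContinuousOn s O ∧ (∀ t ∈ O, s t ∈ closedBall (0 : E) ε ∧ Ψ t (s t) = 0) ∧
    ∀ t ∈ O, ∀ u ∈ closedBall (0 : E) ε, Ψ t u = 0 → u = s t

/-- SLV (solver near a compact set of parameters).  Uses `StUCT`.

PROOF.  The set of all `(t, u)` with `‖D(Ψ t)(u) - id‖ < 1/2` is open and contains `K × {0}`; by the tube lemma (`generalized_tube_lemma`) there are an open `O₁ ⊇ K` and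
`ε > 0` such that it contains `O₁ × B̄_ε`.  `O = O₁ ∩ {t | ‖Ψ t 0‖ < ε/2}` is open and contains `K`.  For `t ∈ O` the map `u ↦ Ψ t u - u` has derivative of norm `≤ 1/2`
on the convex set `B̄_ε`, so it is Lipschitz with constant `1/2` there (`Convex.norm_image_sub_le_of_norm_fderiv_le`).  UCT gives `s`; for `t ∈ K`, `u = 0` is a solution, so `s t = 0`
by uniqueness. -/
def StSLV : Prop := ∀ (T E : Type) [TopologicalSpace T] [NormedAddCommGroup E] [NormedSpace ℝ E]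
  [FiniteDimensional ℝ E] (K : Set T) (Ψ : T → E → E), IsCompact K →
  Continuous (fun z : T × E => Ψ z.1 z.2) → (∀ t, Differentiable ℝ (Ψ t)) →
  Continuous (fun z : T × E => fderiv ℝ (Ψ z.1) z.2) → (∀ t ∈ K, Ψ t 0 = 0) →
  (∀ t ∈ K, ‖fderiv ℝ (Ψ t) 0 - ContinuousLinearMap.id ℝ E‖ < 1 / 2) →
  ∃ (O : Set T) (s : T → E), IsOpen O ∧ K ⊆ O ∧ ContinuousOn s O ∧ (∀ t ∈ O, Ψ t (s t) = 0) ∧
    ∀ t ∈ K, s t = 0

/-- SEL (continuous approximate right inverses).

PROOF.  `exists_continuous_forall_mem_convex_of_local_const` (or its successor name) for the space `V` (metric, hence normal and paracompact) and the convex sets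
`t x = {B : E' →L[ℝ] E | x ∈ L → ‖(A x) ∘ B - id‖ < η}` (preimage of a ball under the affine map `B ↦ A x ∘ B - id`).  Local constants: for `x ∉ L` any `B` (the complement
of `L` is open).  For `x ∈ L` a right inverse `B` of the surjective `A x` (`LinearMap.exists_rightInverse_of_surjective`, `LinearMap.toContinuousLinearMap`): `A x ∘ B = id`, and
`y ↦ A y ∘ B` is continuous, so `‖A y ∘ B - id‖ < η` for `y` near `x`. -/
def StSEL : Prop := ∀ (V E E' : Type) [NormedAddCommGroup V] [NormedSpace ℝ V]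
  [FiniteDimensional ℝ V] [NormedAddCommGroup E] [NormedSpace ℝ E] [FiniteDimensional ℝ E]
  [NormedAddCommGroup E'] [NormedSpace ℝ E'] [FiniteDimensional ℝ E'] (L : Set V)
  (A : V → E →L[ℝ] E') (η : ℝ), IsCompact L → Continuous A →
  (∀ x ∈ L, Function.Surjective (A x)) → 0 < η →
  ∃ B : V → E' →L[ℝ] E, Continuous B ∧
    ∀ x ∈ L, ‖(A x).comp (B x) - ContinuousLinearMap.id ℝ E'‖ < η

/-- RET (target 1, local retraction onto `Y`).  Uses `StSLV`, `StSEL`.

PROOF.  SEL with `A = DP` (continuous), `η = 1/2`: `B : V → ℂ →L[ℝ] V` continuous, `‖DP(x) ∘ B x - id‖ < 1/2` on `L`.  SLV with `T = V`, `E = ℂ`, `K = L`,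
`Ψ x s = P (x + B x s)`: continuous; `D(Ψ x)(s) = DP(x + B x s) ∘ B x`, continuous in `(x, s)`; `Ψ x 0 = P x = 0` on `L`.  So `r x = x + B x (s x)` is continuous on `O`,
`P (r x) = 0`, and `r x = x` on `L`. -/
def StRET : Prop := ∀ (V : Type) [NormedAddCommGroup V] [NormedSpace ℝ V]
  [FiniteDimensional ℝ V] (P : V → ℂ) (L : Set V), ContDiff ℝ ∞ P →
  (∀ x, P x = 0 → Function.Surjective (fderiv ℝ P x)) → IsCompact L → (∀ x ∈ L, P x = 0) →
  ∃ (O : Set V) (r : V → V), IsOpen O ∧ L ⊆ O ∧ ContinuousOn r O ∧ MapsTo r O {x | P x = 0} ∧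
    EqOn r id L

/-! ### B2: words of flows -/

/-- VEL.  PROOF.  `vel e y = (D ê (0, y)) ∘ inl` with `ê (c, x) = e c x` (chain rule), continuous in `y`.  For `y ∈ Y` the function `c ↦ P (e c y)` is constant `0`, its derivative at `0` is
`DP(e 0 y) ∘ vel e y = DP(y) ∘ vel e y`. -/
def StVEL : Prop := ∀ (V : Type) [NormedAddCommGroup V] [NormedSpace ℝ V]
  [FiniteDimensional ℝ V] (P : V → ℂ) (e : ℂ → V → V), ContDiff ℝ ∞ P →
  Flw {x | P x = 0} e → Continuous (fun y => vel e y) ∧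
    ∀ y, P y = 0 → ∀ c : ℂ, fderiv ℝ P y (vel e y c) = 0

/-- WDS (words: smoothness and derivative).

PROOF.  Induction on `N` (all statements simultaneously, `e` and `c` general).  `N = 0`: `wd 0 e c x = x`, the derivative in `c` of a constant is `0`.  `N + 1`: `wd (N+1) e c x =
W (tail c, e 0 (c 0) x)` with `W (c', x) = wd N e' c' x`, `e' k = e k.succ`; smooth as a composition; `wd (N+1) e 0 x = W (0, e 0 0 x) = x`.  Derivative at `c = 0` in the direction `c`: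
`D₁W(0, y)(tail c) + D₂W(0, y)(vel (e 0) y (c 0))`; `D₂W(0, y) = id` because `W (0, x) = x` for all `x`, and `D₁W(0, y)(tail c) = ∑ k, vel (e k.succ) y (c k.succ)`
by induction; `Fin.sum_univ_succ`. -/
def StWDS : Prop := ∀ (V : Type) [NormedAddCommGroup V] [NormedSpace ℝ V]
  [FiniteDimensional ℝ V] (Y : Set V) (N : ℕ) (e : Fin N → ℂ → V → V), (∀ k, Flw Y (e k)) →
  ContDiff ℝ ∞ (fun z : (Fin N → ℂ) × V => wd N e z.1 z.2) ∧ (∀ x, wd N e 0 x = x) ∧
  (∀ c, ∀ x ∈ Y, wd N e c x ∈ Y) ∧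
  ∀ (y : V) (c : Fin N → ℂ), fderiv ℝ (fun c => wd N e c y) 0 c = ∑ k, vel (e k) y (c k)

/-- ENU.  PROOF.  The set of all sums `∑ k, vel (e k) y (c k)` is a submodule (range of a linear map) which contains every `range (vel (e k) y)` (take `c = Pi.single k a`) and is
contained in every submodule containing all of them. -/
def StENU : Prop := ∀ (V : Type) [NormedAddCommGroup V] [NormedSpace ℝ V]
  [FiniteDimensional ℝ V] (N : ℕ) (e : Fin N → ℂ → V → V) (y v : V),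
  v ∈ spn (range e) y ↔ ∃ c : Fin N → ℂ, v = ∑ k, vel (e k) y (c k)

/-- LOC (a finite subfamily spans near a point).  Uses `StVEL`, `StENU`.

PROOF.  (a) There is a finite `𝓖 ⊆ 𝓕` with `ker DP(y₀) ≤ spn 𝓖 y₀`: the kernel is finitely generated, every generator lies in the span of the union of the ranges `range (vel e y₀)`, `e ∈ 𝓕`, hence in
the span of a finite subset (`Submodule.mem_span_finite_of_mem_span`), each of whose members lies in one of the ranges.  Write `𝓖 = range e`, `e : Fin N → _`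
(`Set.Finite`, `Finset.equivFin`).
(b) Let `n : ℂ →L[ℝ] V` be a right inverse of `DP(y₀)` and `A y (c, s) = ∑ k, vel (e k) y (c k) + n s`, a continuous linear map from `(Fin N → ℂ) × ℂ` to `V`, continuous in `y` (VEL).
`A y₀` is surjective: for `v ∈ V` let `s = DP(y₀) v`; `v - n s ∈ ker DP(y₀)`, so it is a sum `∑ k, vel (e k) y₀ (c k)` (ENU).  Let `B` be a right inverse of `A y₀`
(continuous, finite dimension).  For `y` near `y₀`: `‖A y ∘ B - id‖ < 1` and `‖DP(y) ∘ n - id‖ < 1`, so `A y ∘ B` is invertible (`Units.oneSub`, `NormedRing`; or injective, hence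
surjective: `(A y ∘ B) v = 0` gives `‖v‖ ≤ ‖A y ∘ B - id‖ ‖v‖`), so `A y` is surjective, and `DP(y) ∘ n` is injective.
(c) For such `y` with `P y = 0` and `DP(y) v = 0`: `v = ∑ k, vel (e k) y (c k) + n s`, apply `DP(y)`: `0 = DP(y) (n s)` (VEL), so `s = 0` and `v ∈ spn 𝓖 y` (ENU). -/
def StLOC : Prop := ∀ (V : Type) [NormedAddCommGroup V] [NormedSpace ℝ V]
  [FiniteDimensional ℝ V] (P : V → ℂ) (𝓕 : Set (ℂ → V → V)) (y₀ : V), ContDiff ℝ ∞ P →
  P y₀ = 0 → Function.Surjective (fderiv ℝ P y₀) → (∀ e ∈ 𝓕, Flw {x | P x = 0} e) →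
  (∀ v, fderiv ℝ P y₀ v = 0 → v ∈ spn 𝓕 y₀) →
  ∃ 𝓖 : Set (ℂ → V → V), 𝓖 ⊆ 𝓕 ∧ 𝓖.Finite ∧
    ∀ᶠ y in 𝓝 y₀, P y = 0 → ∀ v, fderiv ℝ P y v = 0 → v ∈ spn 𝓖 y

/-- UNI (one word for a compact set).  Uses `StLOC`, `StENU`.

PROOF.  `IsCompact.induction_on` for `M` and the property of `S`: there is a finite `𝓖 ⊆ 𝓕` such that for all `y ∈ S` with `P y = 0` and all `v` with `DP(y) v = 0`: `v ∈ spn 𝓖 y`.  Empty set,
subsets: clear.  Union of two sets: union of the families, `spn` is monotone in the family (`Submodule.span_mono`, `biUnion_subset_biUnion_left`).  Local: LOC.  Finally `𝓖 = range e` and ENU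
(`𝓖` may be empty: `N = 0`). -/
def StUNI : Prop := ∀ (V : Type) [NormedAddCommGroup V] [NormedSpace ℝ V]
  [FiniteDimensional ℝ V] (P : V → ℂ) (𝓕 : Set (ℂ → V → V)) (M : Set V), ContDiff ℝ ∞ P →
  (∀ x, P x = 0 → Function.Surjective (fderiv ℝ P x)) → (∀ e ∈ 𝓕, Flw {x | P x = 0} e) →
  (∀ y, P y = 0 → ∀ v, fderiv ℝ P y v = 0 → v ∈ spn 𝓕 y) → IsCompact M →
  (∀ y ∈ M, P y = 0) →
  ∃ (N : ℕ) (e : Fin N → ℂ → V → V), (∀ k, e k ∈ 𝓕) ∧
    ∀ y ∈ M, ∀ v, fderiv ℝ P y v = 0 → ∃ c : Fin N → ℂ, v = ∑ k, vel (e k) y (c k)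

/-- NRM (the normal direction).

PROOF.  The map `(y, w, σ) ↦ DP(w + B y σ) ∘ B y - id` is continuous and has norm `< 1/2` at `(y₀, y₀, 0)`; so there is `ρ > 0` such that the norm is `≤ 1/2` for `‖y - y₀‖ < ρ`,
`‖w - y₀‖ < ρ`, `‖σ‖ < ρ` (a product of balls).  For such `(y, w, σ)` the map `τ ↦ P (w + B y τ) - τ` has derivative of norm `≤ 1/2` on the ball `‖τ‖ < ρ` (convex), so
`‖P (w + B y σ) - σ - P w‖ ≤ ‖σ‖/2`.  If `P (w + B y σ) = P w` this gives `‖σ‖ ≤ ‖σ‖/2`, so `σ = 0`. -/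
def StNRM : Prop := ∀ (V : Type) [NormedAddCommGroup V] [NormedSpace ℝ V]
  [FiniteDimensional ℝ V] (P : V → ℂ) (B : V → ℂ →L[ℝ] V) (y₀ : V), ContDiff ℝ ∞ P →
  Continuous B → ‖(fderiv ℝ P y₀).comp (B y₀) - ContinuousLinearMap.id ℝ ℂ‖ < 1 / 2 →
  ∀ᶠ z : V × V × ℂ in 𝓝 (y₀, y₀, 0), P (z.2.1 + B z.1 z.2.2) = P z.2.1 → z.2.2 = 0

/-- CLO (close points are joined by a word with continuous parameters).  Uses `StSLV`, `StSEL`, `StVEL`, `StWDS`, `StNRM`.

PROOF.  SEL for `DP`: `B : V → ℂ →L[ℝ] V`, continuous, `‖DP(y) ∘ B y - id‖ < 1/2` on `M`; so `DP(y) ∘ B y` is bijective for `y ∈ M`.  `A y (c, s) = ∑ k, vel (e k) y (c k) + B y s`: continuous in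
`y`, surjective for `y ∈ M` (given `v` choose `s` with `DP(y) (B y s) = DP(y) v`; `v - B y s` is in the kernel).  SEL for `A`: `g : V → V →L[ℝ] (Fin N → ℂ) × ℂ` continuous with
`‖A y ∘ g y - id‖ < 1/2` on `M`.  SLV with `T = V × V`, `E = V`, `K = {(y, y) | y ∈ M}`, `Ψ (y, y') u = wd N e ((g y u).1) y + B y ((g y u).2) - y'`: `Ψ (y, y) 0 = 0`,
`D(Ψ t)(0) = A y ∘ g y` (WDS).  This gives `O₁` and `s`.  Put `b t = (g t.1 (s t)).1`, `w t = wd N e (b t) t.1`, `σ t = (g t.1 (s t)).2`; `h t = (t.1, w t, σ t)` is continuous on `O₁` and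
`h (y, y) = (y, y, 0)` for `y ∈ M`.  Let `R` be the set of all `(y, w, σ)` with `P (w + B y σ) = P w → σ = 0`; `(y, y, 0)` is in the interior of `R` for `y ∈ M` (NRM).
`O = O₁ ∩ h⁻¹(interior R)` is open (`ContinuousOn.isOpen_inter_preimage`).  For `z ∈ O` with `P z.1 = P z.2 = 0`: `w z ∈ Y` (WDS), `w z + B z.1 (σ z) = z.2`, so
`P (w + B σ) = 0 = P w`, `σ = 0` and `w z = z.2`. -/
def StCLO : Prop := ∀ (V : Type) [NormedAddCommGroup V] [NormedSpace ℝ V]
  [FiniteDimensional ℝ V] (P : V → ℂ) (N : ℕ) (e : Fin N → ℂ → V → V) (M : Set V),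
  ContDiff ℝ ∞ P → (∀ x, P x = 0 → Function.Surjective (fderiv ℝ P x)) →
  (∀ k, Flw {x | P x = 0} (e k)) → IsCompact M → (∀ y ∈ M, P y = 0) →
  (∀ y ∈ M, ∀ v, fderiv ℝ P y v = 0 → ∃ c : Fin N → ℂ, v = ∑ k, vel (e k) y (c k)) →
  ∃ (O : Set (V × V)) (b : V × V → Fin N → ℂ), IsOpen O ∧ (∀ y ∈ M, (y, y) ∈ O) ∧
    ContinuousOn b O ∧ ∀ z ∈ O, P z.1 = 0 → P z.2 = 0 → wd N e (b z) z.1 = z.2

/-- RWD.  PROOF.  Induction on `N` for all `e, f, u, u'`.  `N = 0`: `u' = u` on `L` (case distinction on the last step of `Rch`: both constructors only use `EqOn`; so first show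
`Rch 𝓕 L u → EqOn u' u L → Rch 𝓕 L u'`).  `N + 1`: `wd (N+1) e c x = wd N e' c' (e 0 (c 0) x)`: apply `Rch.step` with `e 0` and `x ↦ f x 0`, then the case `N`. -/
def StRWD : Prop := ∀ (V : Type) [NormedAddCommGroup V] [NormedSpace ℝ V]
  [FiniteDimensional ℝ V] (𝓕 : Set (ℂ → V → V)) (L : Set V) (N : ℕ)
  (e : Fin N → ℂ → V → V) (f : V → Fin N → ℂ) (u u' : V → V), (∀ k, e k ∈ 𝓕) →
  ContinuousOn f L → Rch 𝓕 L u → EqOn u' (fun x => wd N e (f x) (u x)) L → Rch 𝓕 L u'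

/-- HOM (target 2, homotopies are realised by words).  Uses `StUNI`, `StCLO`, `StRWD`.

PROOF.  `M` = image of `L × [0,1]` under `H`: compact, contained in `Y`.  UNI: the word `N, e`; CLO: `O, b`.  The compact set `{(y, y) | y ∈ M}` lies in the open `O`, so there is `δ > 0` with `(y, y') ∈ O`
whenever `y ∈ M`, `dist y y' < δ` (`IsCompact.exists_thickening_subset_open`).  `H` is uniformly continuous on the compact set `L × [0,1]`
(`IsCompact.uniformContinuousOn_of_continuous`): choose `n : ℕ`, `0 < n`, with `dist (H x t) (H x t') < δ` for `x ∈ L`, `t, t' ∈ [0,1]`, `|t - t'| ≤ 1/n`.  Induction on `j ≤ n`: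
`Rch 𝓕 L (x ↦ H x (j/n))`.  `j = 0`: `Rch.base` (`H x 0 = x`).  Step: on `L`, `H x ((j+1)/n) = wd N e (b (H x (j/n), H x ((j+1)/n))) (H x (j/n))` by CLO, and the parameters are continuous on
`L`; RWD. -/
def StHOM : Prop := ∀ (V : Type) [NormedAddCommGroup V] [NormedSpace ℝ V]
  [FiniteDimensional ℝ V] (P : V → ℂ) (𝓕 : Set (ℂ → V → V)) (L : Set V) (H : V → ℝ → V),
  ContDiff ℝ ∞ P → (∀ x, P x = 0 → Function.Surjective (fderiv ℝ P x)) →
  (∀ e ∈ 𝓕, Flw {x | P x = 0} e) → (∀ y, P y = 0 → ∀ v, fderiv ℝ P y v = 0 → v ∈ spn 𝓕 y) →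
  IsCompact L → ContinuousOn (fun z : V × ℝ => H z.1 z.2) (L ×ˢ Icc (0 : ℝ) 1) →
  (∀ x ∈ L, ∀ t ∈ Icc (0 : ℝ) 1, P (H x t) = 0) → (∀ x ∈ L, H x 0 = x) →
  Rch 𝓕 L (fun x => H x 1)

/-! ### B3: smooth parameters -/

/-- SMA (smooth approximation on a compact set).

PROOF.  The smooth version of `exists_continuous_forall_mem_convex_of_local_const` for the manifold `V` (`exists_contMDiff_forall_mem_convex_of_local_const` or similar name in
`Mathlib/Geometry/Manifold/PartitionOfUnity.lean`) with `t x = {c : ℂ | x ∈ L → ‖c - f x‖ < ε}`: convex; local constants: `c = f x` for `x ∈ L` (`ContinuousOn`), anything for `x ∉ L`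
(`L` is closed).  `contMDiff_iff_contDiff`. -/
def StSMA : Prop := ∀ (V : Type) [NormedAddCommGroup V] [NormedSpace ℝ V]
  [FiniteDimensional ℝ V] (L : Set V) (f : V → ℂ) (ε : ℝ), IsCompact L → ContinuousOn f L →
  0 < ε → ∃ g : V → ℂ, ContDiff ℝ ∞ g ∧ ∀ x ∈ L, ‖g x - f x‖ < ε

/-- APX (target 3).  Uses `StSMA`.

PROOF.  (a) `Rch 𝓕 L u → ContinuousOn u L` (induction).  (b) Claim, by induction on `Rch 𝓕 L u`: for all `ε > 0` there is `G` with `Par Y G` and `dist (G x x) (u x) < ε` for `x ∈ L`.  Base: `G y x = x`.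
Step: `u' x = e (f x) (u x)` on `L`.  The set `{(f x, u x) | x ∈ L}` is compact, so there is `δ > 0` such that `dist (e c v) (e (f x) (u x)) < ε` for `x ∈ L`, `‖c - f x‖ < δ`, `‖v - u x‖ < δ`
(uniform continuity of `(c, v) ↦ e c v` near a compact set, e.g. on a closed thickening, or a Lebesgue number argument `lebesgue_number_lemma_of_metric`).
Take `G` for `δ` (induction) and `f'` smooth with `‖f' - f‖ < δ` on `L` (SMA), `G' y x = e (f' y) (G y x)` with the inverse `H' y x = H y (e (-f' y) x)` (`e c (e (-c) x) = x` is `Flw.inv` for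
`-c`); smooth, preserves `Y`.  (c) `u` maps the compact set `L` into the open set `U`: `u '' L` is compact, so there is `ε > 0` such that the `ε`-thickening of `u '' L` is in `U`
(`IsCompact.exists_thickening_subset_open`). -/
def StAPX : Prop := ∀ (V : Type) [NormedAddCommGroup V] [NormedSpace ℝ V]
  [FiniteDimensional ℝ V] (Y : Set V) (𝓕 : Set (ℂ → V → V)) (L U : Set V) (u : V → V),
  (∀ e ∈ 𝓕, Flw Y e) → IsCompact L → Rch 𝓕 L u → MapsTo u L U → IsOpen U →
  ∃ G : V → V → V, Par Y G ∧ ∀ x ∈ L, G x x ∈ U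

end Pool.Agent.Helper65.FX
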