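import Pool.Agent.Helper65.FX.Tgt
import Pool.Agent.Helper33.FX.M_UCT
import Pool.Agent.Helper25.FX.M_SLV
import Pool.Agent.Helper16.FX.M_SEL
import Pool.Agent.Helper14.FX.M_RET
import Pool.Agent.Helper64.FX.M_VEL
import Pool.Agent.Helper62.FX.M_WDS
import Pool.Agent.Helper4.FX.M_ENU
import Pool.Agent.Helper34.FX.M_LOC
import Pool.Agent.Helper86.FX.M_UNI
import Pool.Agent.Helper39.FX.M_NRM
import Pool.Agent.Helper36.FX.M_RWD
import Pool.Agent.Helper18.FX.M_HOM
import Pool.Agent.Helper10.FX.M_SMA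
import Pool.Agent.Helper58.FX.M_APX

/-!
# Project FX (MP_3bffab_ag): the analytic part of chapter S is complete
-/

set_option autoImplicit false

namespace Pool.Agent.Helper65.FX

open Pool.Agent.Helper87.FX (TRET THOM TAPX)

theorem slv : StSLV := Pool.Agent.Helper25.FX.hSLV Pool.Agent.Helper33.FX.hUCT

theorem tret : TRET := tret_of (Pool.Agent.Helper14.FX.hRET slv Pool.Agent.Helper16.FX.hSEL)

theorem clo : StCLO := hCLO slv Pool.Agent.Helper16.FX.hSEL Pool.Agent.Helper64.FX.hVEL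
  Pool.Agent.Helper62.FX.hWDS Pool.Agent.Helper39.FX.hNRM

theorem uni : StUNI := Pool.Agent.Helper86.FX.hUNI
  (Pool.Agent.Helper34.FX.hLOC Pool.Agent.Helper64.FX.hVEL Pool.Agent.Helper4.FX.hENU)
  Pool.Agent.Helper4.FX.hENU

theorem thom : THOM := thom_of (Pool.Agent.Helper18.FX.hHOM uni clo Pool.Agent.Helper36.FX.hRWD)

theorem tapx : TAPX := tapx_of (Pool.Agent.Helper58.FX.hAPX Pool.Agent.Helper10.FX.hSMA)

end Pool.Agent.Helper65.FX
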