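import Pool.Agent.Helper65.FX.St

/-!
# Project FX (MP_3bffab_ag), module CLO: close points of `Y` are joined by a word with continuous parameters
-/

set_option autoImplicit false

namespace Pool.Agent.Helper65.FX

open Set Topology Metric Filter
open scoped ContDiff
open Pool.Agent.Helper87.FX (Flw Par vel spn wd Rch)

/-- a linear endomorphism close to the identity is surjective -/
theorem surj_of_near {E : Type} [NormedAddCommGroup E] [NormedSpace ℝ E] [FiniteDimensional ℝ E]
    (D : E →L[ℝ] E) (h : ‖D - ContinuousLinearMap.id ℝ E‖ < 1 / 2) : Function.Surjective D := by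
  have hinj : Function.Injective (D : E →ₗ[ℝ] E) := by
    rw [← LinearMap.ker_eq_bot, LinearMap.ker_eq_bot']
    intro s hs
    have hs' : D s = 0 := hs
    have h1 : ‖(D - ContinuousLinearMap.id ℝ E) s‖ ≤ ‖D - ContinuousLinearMap.id ℝ E‖ * ‖s‖ :=
      ContinuousLinearMap.le_opNorm _ _
    have h2 : (D - ContinuousLinearMap.id ℝ E) s = -s := by simp [hs']
    rw [h2, norm_neg] at h1
    have h3 : ‖s‖ ≤ 1 / 2 * ‖s‖ :=
      h1.trans (mul_le_mul_of_nonneg_right h.le (norm_nonneg _))
    have h4 : ‖s‖ = 0 := le_antisymm (by linarith) (norm_nonneg _)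
    exact norm_eq_zero.mp h4
  exact (LinearMap.injective_iff_surjective.mp hinj)

theorem hCLO : StSLV → StSEL → StVEL → StWDS → StNRM → StCLO := by
  intro hSLV hSEL hVEL hWDS hNRM V _ _ _ P N e M hP hsurj hflw hM hMY hspan
  have hDP : Continuous (fderiv ℝ P) := hP.continuous_fderiv (by simp)
  obtain ⟨B, hB, hBM⟩ := hSEL V V ℂ M (fderiv ℝ P) (1 / 2) hM hDP
    (fun x hx => hsurj x (hMY x hx)) (by norm_num)
  have hvelc : ∀ k, Continuous (fun y => vel (e k) y) := fun k => (hVEL V P (e k) hP (hflw k)).1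
  obtain ⟨hWs, hW0, hWY, hWd⟩ := hWDS V {x | P x = 0} N e hflw
  have hWc : Continuous (fun z : (Fin N → ℂ) × V => wd N e z.1 z.2) := hWs.continuous
  -- the linear maps `A y`
  let A : V → ((Fin N → ℂ) × ℂ) →L[ℝ] V := fun y =>
    (∑ k, (vel (e k) y).comp ((ContinuousLinearMap.proj (R := ℝ) (φ := fun _ : Fin N => ℂ) k).comp
      (ContinuousLinearMap.fst ℝ (Fin N → ℂ) ℂ))) +
      (B y).comp (ContinuousLinearMap.snd ℝ (Fin N → ℂ) ℂ)
  have hA : ∀ y c s, A y (c, s) = ∑ k, vel (e k) y (c k) + B y s := by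
    intro y c s
    simp [A]
  have hAc : Continuous A := by
    refine Continuous.add (continuous_finsetSum _ fun k _ => ?_) ?_
    · exact (hvelc k).clm_comp continuous_const
    · exact hB.clm_comp continuous_const
  have hAsurj : ∀ y ∈ M, Function.Surjective (A y) := by
    intro y hy v
    obtain ⟨s, hs⟩ := surj_of_near ((fderiv ℝ P y).comp (B y)) (hBM y hy) (fderiv ℝ P y v)
    have hk : fderiv ℝ P y (v - B y s) = 0 := by
      rw [map_sub, ← hs]; simp
    obtain ⟨c, hc⟩ := hspan y hy _ hk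
    refine ⟨(c, s), ?_⟩
    rw [hA, ← hc]; abel
  obtain ⟨g, hg, hgM⟩ := hSEL V ((Fin N → ℂ) × ℂ) V M A (1 / 2) hM hAc hAsurj (by norm_num)
  -- the equation
  let Ψ : V × V → V → V := fun t u => wd N e ((g t.1 u).1) t.1 + B t.1 ((g t.1 u).2) - t.2
  have hgc : Continuous (fun z : (V × V) × V => g z.1.1 z.2) :=
    (hg.comp (continuous_fst.comp continuous_fst)).clm_apply continuous_snd
  have hΨc : Continuous (fun z : (V × V) × V => Ψ z.1 z.2) := by
    refine ((hWc.comp ((continuous_fst.comp hgc).prodMk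
      (continuous_fst.comp continuous_fst))).add ?_).sub (continuous_snd.comp continuous_fst)
    exact (hB.comp (continuous_fst.comp continuous_fst)).clm_apply (continuous_snd.comp hgc)
  let W : (Fin N → ℂ) × V → V := fun z => wd N e z.1 z.2
  have hWdiff : Differentiable ℝ W := hWs.differentiable (by simp)
  have hDWc : Continuous (fderiv ℝ W) := hWs.continuous_fderiv (by simp)
  let D : (V × V) × V → V →L[ℝ] V := fun z =>
    (fderiv ℝ W ((g z.1.1 z.2).1, z.1.1)).comp ((ContinuousLinearMap.inl ℝ (Fin N → ℂ) V).comp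
      ((ContinuousLinearMap.fst ℝ (Fin N → ℂ) ℂ).comp (g z.1.1))) +
      (B z.1.1).comp ((ContinuousLinearMap.snd ℝ (Fin N → ℂ) ℂ).comp (g z.1.1))
  have hderiv : ∀ (t : V × V) (u : V), HasFDerivAt (Ψ t) (D (t, u)) u := by
    intro t u
    have h1 : HasFDerivAt (fun u => ((g t.1 u).1, t.1))
        ((ContinuousLinearMap.inl ℝ (Fin N → ℂ) V).comp
      ((ContinuousLinearMap.fst ℝ (Fin N → ℂ) ℂ).comp (g t.1))) u := by
      have h2 := (((ContinuousLinearMap.inl ℝ (Fin N → ℂ) V).comp
        ((ContinuousLinearMap.fst ℝ (Fin N → ℂ) ℂ).comp (g t.1))).hasFDerivAt (x := u)).add_const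
          ((0 : Fin N → ℂ), t.1)
      have h3 : (fun u => ((g t.1 u).1, t.1)) = fun u => ((ContinuousLinearMap.inl ℝ (Fin N → ℂ) V).comp
        ((ContinuousLinearMap.fst ℝ (Fin N → ℂ) ℂ).comp (g t.1))) u + ((0 : Fin N → ℂ), t.1) := by
        funext u
        simp
      rw [h3]
      exact h2
    have h4 : HasFDerivAt (fun u => W ((g t.1 u).1, t.1)) ((fderiv ℝ W ((g t.1 u).1, t.1)).comp
        ((ContinuousLinearMap.inl ℝ (Fin N → ℂ) V).comp
        ((ContinuousLinearMap.fst ℝ (Fin N → ℂ) ℂ).comp (g t.1)))) u :=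
      HasFDerivAt.comp u (hWdiff _).hasFDerivAt h1
    have h5 : HasFDerivAt (fun u => B t.1 ((g t.1 u).2))
        ((B t.1).comp ((ContinuousLinearMap.snd ℝ (Fin N → ℂ) ℂ).comp (g t.1))) u :=
      ((B t.1).comp ((ContinuousLinearMap.snd ℝ (Fin N → ℂ) ℂ).comp (g t.1))).hasFDerivAt
    exact (h4.add h5).sub_const t.2
  have hfd : ∀ (t : V × V) (u : V), fderiv ℝ (Ψ t) u = D (t, u) := fun t u => (hderiv t u).fderiv
  have hDc : Continuous D := by
    refine Continuous.add ?_ ?_
    · refine (hDWc.comp ((continuous_fst.comp hgc).prodMk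
        (continuous_fst.comp continuous_fst))).clm_comp ?_
      exact continuous_const.clm_comp (continuous_const.clm_comp
        (hg.comp (continuous_fst.comp continuous_fst)))
    · exact (hB.comp (continuous_fst.comp continuous_fst)).clm_comp
        (continuous_const.clm_comp (hg.comp (continuous_fst.comp continuous_fst)))
  have hD0 : ∀ y, D ((y, y), 0) = (A y).comp (g y) := by
    intro y
    have h1 : (fderiv ℝ W ((0 : Fin N → ℂ), y)).comp (ContinuousLinearMap.inl ℝ (Fin N → ℂ) V) =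
        fderiv ℝ (fun c => wd N e c y) 0 := by
      have h2 : HasFDerivAt (fun c : Fin N → ℂ => (c, y)) (ContinuousLinearMap.inl ℝ (Fin N → ℂ) V)
          (0 : Fin N → ℂ) := hasFDerivAt_prodMk_left 0 y
      have h3 : HasFDerivAt (fun c : Fin N → ℂ => W (c, y))
          ((fderiv ℝ W ((0 : Fin N → ℂ), y)).comp (ContinuousLinearMap.inl ℝ (Fin N → ℂ) V)) 0 := by
        have h4 : HasFDerivAt W (fderiv ℝ W ((0 : Fin N → ℂ), y)) ((0 : Fin N → ℂ), y) :=
          (hWdiff ((0 : Fin N → ℂ), y)).hasFDerivAt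
        exact HasFDerivAt.comp (g := W) (f := fun c : Fin N → ℂ => (c, y)) (0 : Fin N → ℂ) h4 h2
      exact h3.fderiv.symm
    ext v
    have h4 : (fderiv ℝ W ((0 : Fin N → ℂ), y)) ((g y v).1, 0) =
        fderiv ℝ (fun c => wd N e c y) 0 (g y v).1 := by
      rw [← h1]; simp
    have h5 : D ((y, y), 0) v = (fderiv ℝ W ((g y (0 : V)).1, y)) ((g y v).1, 0) +
        B y (g y v).2 := by
      simp [D]
    have h6 : (g y (0 : V)).1 = (0 : Fin N → ℂ) := by simp
    rw [h5, h6, h4, hWd]
    have h7 : ((A y).comp (g y)) v = A y ((g y v).1, (g y v).2) := rfl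
    rw [h7, hA]
  have hK : IsCompact ((fun y : V => (y, y)) '' M) :=
    hM.image (continuous_id.prodMk continuous_id)
  obtain ⟨O₁, s, hO₁, hKO, hs, hsol, hs0⟩ := hSLV (V × V) V ((fun y : V => (y, y)) '' M) Ψ hK hΨc
    (fun t u => (hderiv t u).differentiableAt)
    (by
      have h1 : (fun z : (V × V) × V => fderiv ℝ (Ψ z.1) z.2) = D := by
        funext z; exact hfd z.1 z.2
      rw [h1]; exact hDc)
    (by
      rintro t ⟨y, hy, rfl⟩
      simp [Ψ, hW0])
    (by
      rintro t ⟨y, hy, rfl⟩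
      rw [hfd, hD0]
      exact hgM y hy)
  -- the map `h`
  let b : V × V → Fin N → ℂ := fun t => (g t.1 (s t)).1
  let h : V × V → V × V × ℂ := fun t => (t.1, wd N e (b t) t.1, (g t.1 (s t)).2)
  have hgs : ContinuousOn (fun t : V × V => g t.1 (s t)) O₁ :=
    ((hg.comp continuous_fst).continuousOn).clm_apply hs
  have hb : ContinuousOn b O₁ := continuous_fst.comp_continuousOn hgs
  have hwc : ContinuousOn (fun t : V × V => wd N e (b t) t.1) O₁ :=
    hWc.comp_continuousOn (hb.prodMk continuousOn_fst)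
  have hh : ContinuousOn h O₁ :=
    continuousOn_fst.prodMk (hwc.prodMk (continuous_snd.comp_continuousOn hgs))
  let R : Set (V × V × ℂ) := {z | P (z.2.1 + B z.1 z.2.2) = P z.2.1 → z.2.2 = 0}
  refine ⟨O₁ ∩ h ⁻¹' interior R, b, hh.isOpen_inter_preimage hO₁ isOpen_interior, ?_,
    hb.mono inter_subset_left, ?_⟩
  · intro y hy
    have hyK : (y, y) ∈ (fun y : V => (y, y)) '' M := ⟨y, hy, rfl⟩
    refine ⟨hKO hyK, ?_⟩
    have h1 : s (y, y) = 0 := hs0 _ hyK
    have h2 : h (y, y) = (y, y, 0) := by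
      simp [h, b, h1, hW0]
    rw [mem_preimage, h2, mem_interior_iff_mem_nhds]
    exact hNRM V P B y hP hB (hBM y hy)
  · rintro z ⟨hz1, hz2⟩ hP1 hP2
    have h1 : h z ∈ R := interior_subset hz2
    have h2 : Ψ z (s z) = 0 := hsol z hz1
    have h3 : wd N e (b z) z.1 + B z.1 ((g z.1 (s z)).2) = z.2 := by
      have : wd N e (b z) z.1 + B z.1 ((g z.1 (s z)).2) - z.2 = 0 := h2
      exact sub_eq_zero.mp this
    have h4 : P (wd N e (b z) z.1) = 0 := hWY (b z) z.1 hP1
    have h5 : (g z.1 (s z)).2 = 0 := by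
      apply h1
      show P (wd N e (b z) z.1 + B z.1 ((g z.1 (s z)).2)) = P (wd N e (b z) z.1)
      rw [h3, h4, hP2]
    rw [h5, map_zero, add_zero] at h3
    exact h3

end Pool.Agent.Helper65.FX
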