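import Pool.Agent.Helper65.FX.M_CLO
import Pool.Agent.Helper87.FX.StC

/-!
# Project FX (MP_3bffab_ag): the three targets of the analytic part in the forms `TRET`, `THOM`, `TAPX`
-/

set_option autoImplicit false

namespace Pool.Agent.Helper65.FX

open Set Topology Metric Filter
open scoped ContDiff
open Pool.Agent.Helper87.FX (Flw Par vel spn wd Rch Ret Hmt Apx TRET THOM TAPX)

theorem tret_of (h : StRET) : TRET := by
  intro V _ _ _ P hP hs L hL hLY
  exact h V P L hP hs hL (fun x hx => hLY hx)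

theorem thom_of (h : StHOM) : THOM := by
  intro V _ _ _ P 𝓕 hP hs hF hspan L H hL _ hH hHY hH0
  exact h V P 𝓕 L H hP hs hF (fun y hy v hv => hspan y hy (LinearMap.mem_ker.mpr hv)) hL hH hHY hH0

theorem tapx_of (h : StAPX) : TAPX := by
  intro V _ _ _ Y 𝓕 hF L U0 u hL _ hR hU hm
  exact h V Y 𝓕 L U0 u hF hL hR hm hU

end Pool.Agent.Helper65.FX
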